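import Pool.Agent.KS6_51.HG.H10

/-!
# MP_3ed42e_nt: the Khintchine–Jarník theorem for affine subspaces

Let `n = d + m`, `A` a real `(d + 1) × m` matrix and `L_A = {(x, x̃ A)}`.  For every dimension
`s ∈ (d - 1, d]` the `s`-dimensional Hausdorff measure of `W_n(ψ) ∩ L_A` is studied, with the series
`∑ k ^ n (ψ(k) / k) ^ (s + 1 - d)`, which is `∑ k ^ (n - 1) ψ(k)` for `s = d`.

Outline.  Convergence: the near-integer set of an affine form with slope `b` is covered by
`≪ (b/δ)^d δ (1 + 1/b)` cubes of side `δ/b`, hence the pre-measures of size `r` satisfy a union bound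
with the sum `∑ ‖A q‖ ^ (-η)`, `η = s + 1 - d`, over `|q| ≤ 2 ^ t`, which is `≪ 2 ^ (t (n + 1 - η))`
under the criterion.  Divergence: the levels at which `2 ^ u (ψ(2 ^ u) / 2 ^ u) ^ η` coincides with its
least non-increasing majorant still carry a divergent series; along them the second moment method
(with the forms of large slope of the pigeonhole argument) gives, at almost every point, slabs of
slope comparable to `2 ^ u` at the distance comparable to `2 ^ u (ψ / 2 ^ u) ^ η / 2 ^ u`; the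
Hausdorff content of such a slab is comparable to the volume of the ball, and a mass transference
argument at the critical exponent (comparison of a cover with the derivative of the measure
`∑ ℓ ^ s δ_u` at a Lebesgue point) gives full content of the open sets in every dyadic cube, hence
infinite measure of the countable intersection.
-/

set_option autoImplicit false

open MeasureTheory
open Pool.Agent.H639R3.G

namespace Pool.Agent.Results.MP_3ed42e_nt.HausdorffMeasures

/-- `|q| ^ τ * ‖A qᵀ‖` is bounded away from zero over the nonzero integer vectors `q` -/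
def Below {d m : ℕ} (A : Matrix (Fin (d + 1)) (Fin m) ℝ) (τ : ℝ) : Prop :=
  ∃ c : ℝ, 0 < c ∧ ∀ q : Fin m → ℤ, q ≠ 0 → c ≤ (supNorm q : ℝ) ^ τ * distIntVec (ev A q)

/-- the series `∑ k ^ n * (ψ k / k) ^ (s + 1 - d)` converges -/
def SeriesConverges (d m : ℕ) (s : ℝ) (ψ : ℕ → ℝ) : Prop :=
  Summable fun k : ℕ => (k : ℝ) ^ (d + m) * (ψ k / k) ^ (s - (d - 1))

/-- convergence half at the dimension `s`: if the series converges then `W_n(ψ) ∩ L_A` is null for
the `s`-dimensional Hausdorff measure -/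
def ConvergenceAt {d m : ℕ} (A : Matrix (Fin (d + 1)) (Fin m) ℝ) (s : ℝ) : Prop :=
  ∀ ψ : ℕ → ℝ, Admissible ψ → SeriesConverges d m s ψ →
    Measure.hausdorffMeasure s {x : Fin d → ℝ | point A x ∈ W ψ} = 0

/-- divergence half at the dimension `s`: if the series diverges then `W_n(ψ) ∩ L_A` has full
`s`-dimensional Hausdorff measure in every open set (infinite measure if `s < d` and the open set is
not empty) -/
def DivergenceAt {d m : ℕ} (A : Matrix (Fin (d + 1)) (Fin m) ℝ) (s : ℝ) : Prop :=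
  ∀ ψ : ℕ → ℝ, Admissible ψ → ¬ SeriesConverges d m s ψ → ∀ V : Set (Fin d → ℝ), IsOpen V →
    Measure.hausdorffMeasure s (V ∩ {x : Fin d → ℝ | point A x ∈ W ψ}) =
      Measure.hausdorffMeasure s V

/-- Let `d, m ≥ 1`, `n = d + m`, and let `A` be a real `(d + 1) × m` matrix.
(1) If `ω(A) < n` (the hypothesis of the question), then `|q| ^ n ‖A qᵀ‖` is bounded below, `L_A` is of
Groshev type for convergence and divergence, and both halves hold for the Hausdorff measure of every
dimension `s ∈ (d - 1, d]`.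
(2) For every `A` and `s ∈ (d - 1, d]`, the convergence half holds at the dimension `s` if and only if
`|q| ^ τ ‖A qᵀ‖` is bounded below, `τ = (n + 1) / (s + 1 - d) - 1`; this holds if `ω(A) < τ` and fails if
`ω(A) > τ`.
(3) If `|q| ^ n ‖A qᵀ‖` is bounded below, then the divergence half holds at every `s ∈ (d - 1, d]`.
(4) If `|q| ^ n ‖A qᵀ‖` is bounded below and `τ ≥ n`, the set of the `τ`-approximable points of `L_A`
has Hausdorff dimension `d - 1 + (n + 1) / (τ + 1)`.
(5) For every `A` and `τ ≥ n`: if `ω(A) < τ` the dimension in (4) is at most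
`d - 1 + (n + 1) / (τ + 1)`; if `ω(A) > τ` then all points of `L_A` are `τ`-approximable.
(6) The divergence half holds simultaneously for countably many subspaces and approximating
functions. -/
theorem result (d m : ℕ) (hd : 1 ≤ d) (hm : 1 ≤ m) (A : Matrix (Fin (d + 1)) (Fin m) ℝ) :
    (exponent A < ((d + m : ℕ) : EReal) → Below A (d + m) ∧
      GroshevConvergence A ∧ GroshevDivergence A ∧
      ∀ s : ℝ, (d : ℝ) - 1 < s → s ≤ d → ConvergenceAt A s ∧ DivergenceAt A s) ∧
    (∀ s : ℝ, (d : ℝ) - 1 < s → s ≤ d →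
      (ConvergenceAt A s ↔ Below A ((d + m + 1) / (s - (d - 1)) - 1)) ∧
      (exponent A < (((d + m + 1) / (s - (d - 1)) - 1 : ℝ) : EReal) → ConvergenceAt A s) ∧
      ((((d + m + 1) / (s - (d - 1)) - 1 : ℝ) : EReal) < exponent A → ¬ ConvergenceAt A s)) ∧
    (Below A (d + m) → ∀ s : ℝ, (d : ℝ) - 1 < s → s ≤ d → DivergenceAt A s) ∧
    (Below A (d + m) → ∀ τ : ℝ, (d + m : ℝ) ≤ τ →
      dimH {x : Fin d → ℝ | point A x ∈ W fun k => (k : ℝ) ^ (-τ)} =
        ENNReal.ofReal (d - 1 + (d + m + 1) / (τ + 1))) ∧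
    (∀ τ : ℝ, (d + m : ℝ) ≤ τ →
      (exponent A < (τ : EReal) →
        dimH {x : Fin d → ℝ | point A x ∈ W fun k => (k : ℝ) ^ (-τ)} ≤
          ENNReal.ofReal (d - 1 + (d + m + 1) / (τ + 1))) ∧
      ((τ : EReal) < exponent A →
        ∀ x : Fin d → ℝ, point A x ∈ W fun k => (k : ℝ) ^ (-τ))) ∧
    (∀ (l : ℕ → ℕ) (B : ∀ i, Matrix (Fin (d + 1)) (Fin (l i)) ℝ) (ψ : ℕ → ℕ → ℝ) (s : ℝ),
      (∀ i, 1 ≤ l i) → (∀ i, Below (B i) (d + l i)) → (∀ i, Admissible (ψ i)) →
      (d : ℝ) - 1 < s → s ≤ d → (∀ i, ¬ SeriesConverges d (l i) s (ψ i)) →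
      ∀ V : Set (Fin d → ℝ), IsOpen V →
        Measure.hausdorffMeasure s (V ∩ {x : Fin d → ℝ | ∀ i, point (B i) x ∈ W (ψ i)}) =
          Measure.hausdorffMeasure s V) := by
  have hd0 : 0 < d := hd
  have hm0 : 0 < m := hm
  have hlow' : ∀ (l : ℕ) (B : Matrix (Fin (d + 1)) (Fin l) ℝ),
      Below B (d + l) ↔ Y762.GA.Low B := by
    intro l B
    rw [KS6_51.HG.low_iff]
    unfold Below KS6_51.HG.LowR
    push_cast
    rfl
  have hlow : Below A (d + m) ↔ Y762.GA.Low A := hlow' m A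
  have hconv : ∀ s : ℝ, (d : ℝ) - 1 < s → s ≤ d →
      (ConvergenceAt A s ↔ Below A ((d + m + 1) / (s - (d - 1)) - 1)) :=
    fun s h1 h2 => KS6_51.HG.conv_iff hd0 hm0 h1 h2 A
  have hdiv : Below A (d + m) → ∀ s : ℝ, (d : ℝ) - 1 < s → s ≤ d → DivergenceAt A s := by
    intro hA s h1 h2 ψ hψ hs V hV
    have h := KS6_51.HG.div_family hd0 h1 h2 (fun _ => m) (fun _ => hm0) (fun _ => A)
      (fun _ => hlow.mp hA) (fun _ => ψ) (fun _ => hψ) (fun _ => hs) V hV
    have e : {x : Fin d → ℝ | ∀ _ : ℕ, point A x ∈ W ψ} = {x | point A x ∈ W ψ} := by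
      ext x
      exact ⟨fun h => h 0, fun h _ => h⟩
    rw [e] at h
    exact h
  refine ⟨?_, ?_, hdiv, ?_, ?_, ?_⟩
  · intro hA
    have hA' : exponent A < (((d + m : ℕ) : ℝ) : EReal) := hA
    have h1 : Below A (d + m) := hlow.mpr (Y762.GA.low_of_exponent_lt hd0 hA)
    refine ⟨h1, (Y762.GA.convergence_iff hd0 hm0).mpr (hlow.mp h1),
      Y762.GA.divergence_of_low hd0 hm0 (hlow.mp h1), fun s h2 h3 => ⟨?_, hdiv h1 s h2 h3⟩⟩
    refine (hconv s h2 h3).mpr ?_
    exact KS6_51.HG.LowR.mono h1 (KS6_51.HG.tau_ge h2 h3)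
  · intro s h1 h2
    refine ⟨hconv s h1 h2, fun h => (hconv s h1 h2).mpr (KS6_51.HG.lowR_of_exponent_lt h),
      fun h h' => KS6_51.HG.not_lowR_of_lt_exponent h ((hconv s h1 h2).mp h')⟩
  · intro hA τ hτ
    exact KS6_51.HG.dim_eq hd0 hm0 A (hlow.mp hA) hτ
  · intro τ hτ
    refine ⟨fun h => ?_, fun h x => ?_⟩
    · apply KS6_51.HG.dim_le hd0 hm0 A hτ
      intro _
      obtain ⟨r, h1, h2⟩ := EReal.lt_iff_exists_real_btwn.1 h
      exact ⟨r, EReal.coe_lt_coe_iff.1 h2, KS6_51.HG.lowR_of_exponent_lt h1⟩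
    · exact KS6_51.HG.all_of_lt A (by
        have : (0 : ℝ) ≤ (d : ℝ) + m := by positivity
        linarith) h x
  · intro l B ψ s hl hB hψ h1 h2 hs V hV
    exact KS6_51.HG.div_family hd0 h1 h2 l hl B (fun i => (hlow' _ _).mp (hB i)) ψ hψ hs V hV

end Pool.Agent.Results.MP_3ed42e_nt.HausdorffMeasures
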